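import Pool.Agent.Q165.AltSigDef
import Pool.Agent.Q165.AltSigSum

/-!
# The two alternating signatures are c-Wilf-equivalent
-/

set_option autoImplicit false

namespace Pool.Agent.Results.MP_ccaf84_co.Alternating

open Q165.AltSig

/-- For every `k ≥ 2` and every `n`, the number of cyclic permutations of `n` letters in the
`+-+⋯`-class of size `k` equals the number of those in the `-+-⋯`-class of size `k`. -/
theorem result : ∀ k : ℕ, 2 ≤ k → ∀ n : ℕ,
    cyclicCount (altPlus k) n = cyclicCount (altMinus k) n := by
  intro k hk n
  exact main hk

end Pool.Agent.Results.MP_ccaf84_co.Alternating
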